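import Pool.Agent.Lib.MP_4a593f_gt.Big.K5
import Pool.Agent.Lib.MP_4a593f_gt.Big.K6

/-!
Asymptotically optimal positivity of the curvature terms of the Weitzenböck formulas on `p`-forms
under `k`-positivity of the curvature operator.
-/

namespace Pool.Agent.Lib.MP_4a593f_gt.Old.AsymptoticPositivityResult

open scoped BigOperators

/-- Algebraic curvature tensors on `ℝⁿ` (components `R i j k l` in the standard basis): skew in
`i, j`, skew in `k, l`, first Bianchi identity. -/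
def IsCurvature {n : ℕ} (R : Fin n → Fin n → Fin n → Fin n → ℝ) : Prop :=
  (∀ i j k l, R j i k l = -R i j k l) ∧ (∀ i j k l, R i j l k = -R i j k l) ∧
    (∀ i j k l, R i j k l + R j k i l + R k i j l = 0)

/-- 2-forms on `ℝⁿ`, in components: skew arrays. -/
def IsTwoForm {n : ℕ} (α : Fin n → Fin n → ℝ) : Prop := ∀ i j, α j i = -α i j

/-- The inner product of 2-forms for which the `e_i ∧ e_j`, `i < j`, are orthonormal. -/
noncomputable def inner2 {n : ℕ} (α β : Fin n → Fin n → ℝ) : ℝ :=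
  (1 / 2) * ∑ i, ∑ j, α i j * β i j

/-- The quadratic form of the curvature operator, `∑_{i<j, k<l} R_ijkl α_ij α_kl`; its value on
`e_i ∧ e_j` is the sectional curvature `R_ijij`. -/
noncomputable def curvOp {n : ℕ} (R : Fin n → Fin n → Fin n → Fin n → ℝ)
    (α : Fin n → Fin n → ℝ) : ℝ :=
  (1 / 4) * ∑ i, ∑ j, ∑ k, ∑ l, R i j k l * α i j * α k l

/-- `k`-positive curvature operator: the sum of its values on any `k` orthonormal 2-forms is
positive, that is, the sum of the `k` lowest eigenvalues is positive. -/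
def KPositive {n : ℕ} (R : Fin n → Fin n → Fin n → Fin n → ℝ) (k : ℕ) : Prop :=
  ∀ ω : Fin k → Fin n → Fin n → ℝ, (∀ i, IsTwoForm (ω i)) →
    (∀ i j, inner2 (ω i) (ω j) = if i = j then 1 else 0) → 0 < ∑ i, curvOp R (ω i)

/-- `p`-forms on `ℝⁿ`, in components: alternating arrays. -/
def IsForm {n p : ℕ} (φ : (Fin p → Fin n) → ℝ) : Prop :=
  ∀ (σ : Equiv.Perm (Fin p)) (I : Fin p → Fin n),
    φ (I ∘ σ) = (Equiv.Perm.sign σ : ℤ) * φ I

/-- The Ricci tensor. -/
noncomputable def ricci {n : ℕ} (R : Fin n → Fin n → Fin n → Fin n → ℝ) (i j : Fin n) : ℝ :=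
  ∑ a, R i a j a

/-- The curvature term of the Weitzenböck formula on `p`-forms (up to the factor `(p-1)!`):
`Ric_ij φ_{iI} φ_{jI} - ((p-1)/2) R_ijkl φ_{ijJ} φ_{klJ}`, summed over all indices, where `I`
stands for `p-1` and `J` for `p-2` indices (only the first part for `p = 1`, and `0` for
`p = 0`). -/
noncomputable def bochner {n : ℕ} (R : Fin n → Fin n → Fin n → Fin n → ℝ) :
    {p : ℕ} → ((Fin p → Fin n) → ℝ) → ℝ
  | 0, _ => 0
  | 1, φ => ∑ i, ∑ j, ricci R i j * φ ![i] * φ ![j]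
  | q + 2, φ =>
      (∑ i, ∑ j, ricci R i j *
        ∑ I : Fin (q + 1) → Fin n, φ (Fin.cons i I) * φ (Fin.cons j I)) -
      ((q + 1 : ℝ) / 2) * ∑ i, ∑ j, ∑ k, ∑ l, R i j k l *
        ∑ K : Fin q → Fin n,
          φ (Fin.cons i (Fin.cons j K)) * φ (Fin.cons k (Fin.cons l K))

theorem bochner_eq {n p : ℕ} (R : Fin n → Fin n → Fin n → Fin n → ℝ)
    (φ : (Fin p → Fin n) → ℝ) : bochner R φ = HopfBig.bochner R φ := by
  match p with
  | 0 => rfl
  | 1 => rfl
  | q + 2 => rfl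

/-- (1) For every `ε > 0` and all large `n`: if the curvature operator is `k`-positive for some
`k ≤ (1-ε)n`, then the Weitzenböck curvature term is positive on all nonzero `p`-forms,
`1 ≤ p ≤ n/2`. If also `p` is large, then `k ≤ (2-ε)(n-p)` is enough on `p`-forms.
(2) This is asymptotically optimal: `k = n` is not enough, in any dimension `n ≥ 3`. -/
theorem result :
    (∀ ε : ℝ, 0 < ε → ∃ N : ℕ, ∀ n : ℕ, N ≤ n → ∀ p : ℕ, 1 ≤ p → 2 * p ≤ n →
      ∀ k : ℕ, ((k : ℝ) ≤ (1 - ε) * n ∨ (N ≤ p ∧ (k : ℝ) ≤ (2 - ε) * (n - p))) →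
      ∀ R : Fin n → Fin n → Fin n → Fin n → ℝ, IsCurvature R → KPositive R k →
      ∀ φ : (Fin p → Fin n) → ℝ, IsForm φ → φ ≠ 0 → 0 < bochner R φ) ∧
    (∀ n : ℕ, 3 ≤ n → ∃ R : Fin n → Fin n → Fin n → Fin n → ℝ, IsCurvature R ∧
      KPositive R n ∧ ∃ φ : (Fin 1 → Fin n) → ℝ, IsForm φ ∧ φ ≠ 0 ∧ bochner R φ = 0) := by
  refine ⟨?_, ?_⟩
  · intro ε hε
    obtain ⟨n₀, h⟩ := HopfBig.main ε hε
    obtain ⟨p₀, h'⟩ := HopfBig.main_degree ε hε
    refine ⟨max n₀ p₀, fun n hn p hp hpn k hk R hR hK φ hφ h0 => ?_⟩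
    rw [bochner_eq]
    rcases hk with hk | ⟨hpN, hk⟩
    · exact h n (le_trans (le_max_left _ _) hn) k hk R hR hK p hp hpn φ hφ h0
    · exact h' p (le_trans (le_max_right _ _) hpN) n hpn k hk R hR hK φ hφ h0
  · intro n hn
    obtain ⟨R, hR, hK, φ, hφ, h0, hb⟩ := HopfBig.sharp n (by omega)
    exact ⟨R, hR, hK, φ, hφ, h0, by rw [bochner_eq]; exact hb⟩

end Pool.Agent.Lib.MP_4a593f_gt.Old.AsymptoticPositivityResult
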